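import Pool.Agent.helper38.TA.SpecK

/-!
# Project TA, row BNE
-/

set_option autoImplicit false

open Complex MeasureTheory Set

namespace Pool.Agent.TA

open Pool.Agent.ZT (fP Bn NN Cen GF hm Sqf cmf lamA muA prm Eta NwD Cof thC LaC LfC FEQ Prs)

theorem BNE : BNE_stmt := by
  intro n η hη hη1
  -- `(1 + t)^(n+2) ≤ C e^(ηt)`
  obtain ⟨C, hC0, hC⟩ : ∃ C : ℝ, 1 ≤ C ∧ ∀ t : ℝ, 0 ≤ t → (1 + t) ^ (n + 2) ≤ C * Real.exp (η * t) := by
    refine ⟨((n + 2).factorial : ℝ) * (1 / η + 1) ^ (n + 2) * Real.exp η + 1, ?_, fun t ht => ?_⟩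
    · have : 0 ≤ ((n + 2).factorial : ℝ) * (1 / η + 1) ^ (n + 2) * Real.exp η := by positivity
      linarith
    · have h1 : (η * (1 + t)) ^ (n + 2) / ((n + 2).factorial : ℝ) ≤ Real.exp (η * (1 + t)) :=
        Real.pow_div_factorial_le_exp (η * (1 + t)) (by positivity) (n + 2)
      have hf : (0 : ℝ) < ((n + 2).factorial : ℝ) := by positivity
      rw [div_le_iff₀ hf] at h1
      have h2 : (1 + t) ^ (n + 2) = (1 / η) ^ (n + 2) * (η * (1 + t)) ^ (n + 2) := by
        rw [← mul_pow]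
        congr 1
        field_simp
      have h3 : (1 / η) ^ (n + 2) ≤ (1 / η + 1) ^ (n + 2) :=
        pow_le_pow_left₀ (by positivity) (by linarith) _
      calc (1 + t) ^ (n + 2) = (1 / η) ^ (n + 2) * (η * (1 + t)) ^ (n + 2) := h2
        _ ≤ (1 / η) ^ (n + 2) * (Real.exp (η * (1 + t)) * ((n + 2).factorial : ℝ)) :=
            mul_le_mul_of_nonneg_left h1 (by positivity)
        _ ≤ (1 / η + 1) ^ (n + 2) * (Real.exp (η * (1 + t)) * ((n + 2).factorial : ℝ)) :=
            mul_le_mul_of_nonneg_right h3 (by positivity)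
        _ = ((n + 2).factorial : ℝ) * (1 / η + 1) ^ (n + 2) * Real.exp η * Real.exp (η * t) := by
            rw [mul_add, mul_one, Real.exp_add]; ring
        _ ≤ _ := by
            have : 0 < Real.exp (η * t) := Real.exp_pos _
            nlinarith
  refine ⟨C, by linarith, fun L x hL hx => ?_⟩
  unfold Bn
  split_ifs with h1
  · have h2 : x ^ (-η) ≤ x ^ (-(1 / 20) : ℝ) := Real.rpow_le_rpow_of_exponent_ge hx h1 (by linarith)
    have h3 : 0 < x ^ (-(1 / 20) : ℝ) := Real.rpow_pos_of_pos hx _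
    nlinarith
  · have hx1 : 1 < x := lt_of_not_ge h1
    have ht : 0 ≤ Real.log x := Real.log_nonneg hx1.le
    have h2 := hC (Real.log x) ht
    have h3 : x ^ (-η) = (Real.exp (η * Real.log x))⁻¹ := by
      rw [Real.rpow_def_of_pos hx, ← Real.exp_neg]
      congr 1
      ring
    have hL0 : 0 < L := by linarith
    have h4 : 1 + Real.log x / L ≤ 1 + Real.log x := by
      have : Real.log x / L ≤ Real.log x := div_le_self ht hL
      linarith
    have h5 : 0 < 1 + Real.log x / L := by positivity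
    have h6 : (1 + Real.log x / L) ^ (n + 2) ≤ C * Real.exp (η * Real.log x) :=
      (pow_le_pow_left₀ h5.le h4 _).trans h2
    rw [h3, ← div_eq_mul_inv, le_div_iff₀ (by positivity), inv_mul_le_iff₀ (Real.exp_pos _)]
    calc (1 + Real.log x / L) ^ (n + 2) ≤ C * Real.exp (η * Real.log x) := h6
      _ = _ := by ring

end Pool.Agent.TA
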