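import Pool.Agent.helper38.TA.SpecK

/-!
# Project TA, row GDT
-/

set_option autoImplicit false

open Complex MeasureTheory Set

namespace Pool.Agent.TA

open Pool.Agent.BA (Par GG kl kf vf fV Bw Den PP wt lam gpf rgz)
open Pool.Agent.ZT (fP Bn NN Cen GF hm Sqf cmf lamA muA prm Eta NwD Cof thC LaC LfC FEQ Prs)

theorem GDT_fV_add {n : ℕ} (μ : Fin n → ℝ) (j : ℕ) (c c' : ℝ →₀ ℝ) (x : ℝ) :
    fV μ j (c + c') x = fV μ j c x + fV μ j c' x := by
  unfold fV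
  exact Finsupp.sum_add_index' (fun _ => by ring) (fun _ _ _ => by ring)

theorem GDT_fP_add {n : ℕ} (μ : Fin n → ℝ) (j : ℕ) (c c' : ℝ →₀ ℝ) (x : ℝ) :
    fP μ j (c + c') x = fP μ j c x + fP μ j c' x := by
  unfold fP
  exact Finsupp.sum_add_index' (fun _ => by ring) (fun _ _ _ => by ring)

theorem GDT_fV_smul {n : ℕ} (μ : Fin n → ℝ) (j : ℕ) (a : ℝ) (c : ℝ →₀ ℝ) (x : ℝ) :
    fV μ j (a • c) x = a * fV μ j c x := by
  unfold fV
  rw [Finsupp.sum_smul_index' (fun _ => by ring), Finsupp.sum, Finsupp.sum, Finset.mul_sum]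
  refine Finset.sum_congr rfl fun u _ => ?_
  rw [smul_eq_mul]
  ring

theorem GDT_fP_smul {n : ℕ} (μ : Fin n → ℝ) (j : ℕ) (a : ℝ) (c : ℝ →₀ ℝ) (x : ℝ) :
    fP μ j (a • c) x = a * fP μ j c x := by
  unfold fP
  rw [Finsupp.sum_smul_index' (fun _ => by ring), Finsupp.sum, Finsupp.sum, Finset.mul_sum]
  refine Finset.sum_congr rfl fun u _ => ?_
  rw [smul_eq_mul]
  ring

theorem GDT_vs_add {n : ℕ} (μ : Fin n → ℝ) (t : ℕ → ℝ) (j : ℕ) (c c' : ℕ →₀ ℝ) (x : ℝ) :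
    ((c + c').sum fun k a => (a : ℂ) * vC μ j (t k) x) =
      (c.sum fun k a => (a : ℂ) * vC μ j (t k) x) + c'.sum fun k a => (a : ℂ) * vC μ j (t k) x :=
  Finsupp.sum_add_index' (fun _ => by simp) (fun _ _ _ => by push_cast; ring)

theorem GDT_vs_smul {n : ℕ} (μ : Fin n → ℝ) (t : ℕ → ℝ) (j : ℕ) (a : ℝ) (c : ℕ →₀ ℝ) (x : ℝ) :
    ((a • c).sum fun k a => (a : ℂ) * vC μ j (t k) x) = (a : ℂ) * c.sum fun k a => (a : ℂ) * vC μ j (t k) x := by
  rw [Finsupp.sum_smul_index' (fun _ => by simp), Finsupp.sum, Finsupp.sum, Finset.mul_sum]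
  refine Finset.sum_congr rfl fun u _ => ?_
  rw [smul_eq_mul]
  push_cast
  ring

/-- the real part -/
theorem GDT_re {n : ℕ} (μ : Fin n → ℝ) (t : ℕ → ℝ) (j : ℕ) (v : VR) (x : ℝ) :
    gR μ t j v x = (gT μ t j (v.1, 0, v.2) x).re := by
  unfold gR gT
  rw [Complex.add_re, Complex.add_re, Complex.ofReal_re]
  have h1 : (((fP μ j (0 : ℝ →₀ ℝ) x : ℝ) : ℂ) * I).re = 0 := by simp
  have h2 : (v.2.sum fun k a => (a : ℂ) * vC μ j (t k) x).re = v.2.sum fun k a => a * (vC μ j (t k) x).re := by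
    rw [Finsupp.sum, Finsupp.sum, Complex.re_sum]
    refine Finset.sum_congr rfl fun u _ => ?_
    rw [Complex.re_ofReal_mul]
  rw [h1, h2, add_zero]

theorem GDT (hVCD : VCD_stmt) (zFDP : Pool.Agent.ZT.FDP_stmt) (bFD : Pool.Agent.BA.FD_stmt) : GDT_stmt := by
  intro n j μ t hμ
  have hder : ∀ (v : VT) (x : ℝ), 0 < x → HasDerivAt (gT μ t j v) (gT μ t (j + 1) v x / x) x := by
    intro v x hx
    have h1 := ((bFD n j μ v.1 hμ).1 x hx).ofReal_comp
    have h3 := (((zFDP n j μ v.2.1 hμ).1 x hx).ofReal_comp).mul_const I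
    have h2 : HasDerivAt (fun y => v.2.2.sum fun k a => (a : ℂ) * vC μ j (t k) y)
        (v.2.2.sum fun k a => (a : ℂ) * (vC μ (j + 1) (t k) x / x)) x := by
      unfold Finsupp.sum
      exact HasDerivAt.fun_sum fun k _ => (((hVCD n j μ hμ).1 (t k) x hx).2).const_mul _
    have h4 := (h1.add h3).add h2
    have h5 : HasDerivAt (gT μ t j v)
        (((fV μ (j + 1) v.1 x / x : ℝ) : ℂ) + ((fP μ (j + 1) v.2.1 x / x : ℝ) : ℂ) * I +
          v.2.2.sum fun k a => (a : ℂ) * (vC μ (j + 1) (t k) x / x)) x := h4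
    refine h5.congr_deriv ?_
    unfold gT
    have h6 : (v.2.2.sum fun k a => (a : ℂ) * (vC μ (j + 1) (t k) x / x)) =
        (v.2.2.sum fun k a => (a : ℂ) * vC μ (j + 1) (t k) x) / x := by
      rw [Finsupp.sum, Finsupp.sum, Finset.sum_div]
      exact Finset.sum_congr rfl fun u _ => by ring
    rw [h6]
    push_cast
    ring
  have hdec : ∀ (v : VT) (σ : ℝ), 1 / 2 < σ → ∃ C : ℝ, ∀ x : ℝ, 0 < x → ‖gT μ t j v x‖ ≤ C * x ^ (-σ) := by
    intro v σ hσ
    obtain ⟨C1, h1⟩ := (bFD n j μ v.1 hμ).2 σ (by linarith)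
    obtain ⟨C2, h20, h2⟩ := (hVCD n j μ hμ).2.1 σ hσ
    obtain ⟨C3, h3⟩ := (zFDP n j μ v.2.1 hμ).2 σ (by linarith)
    refine ⟨C1 + C3 + v.2.2.sum (fun k a => |a| * C2), fun x hx => ?_⟩
    unfold gT
    have h4 : ‖((fV μ j v.1 x : ℝ) : ℂ) + ((fP μ j v.2.1 x : ℝ) : ℂ) * I‖ ≤ |fV μ j v.1 x| + |fP μ j v.2.1 x| := by
      refine (norm_add_le _ _).trans (le_of_eq ?_)
      rw [norm_mul, norm_I, mul_one, norm_real, norm_real, Real.norm_eq_abs, Real.norm_eq_abs]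
    have h5 : ‖v.2.2.sum fun k a => (a : ℂ) * vC μ j (t k) x‖ ≤ (v.2.2.sum fun k a => |a| * C2) * x ^ (-σ) := by
      rw [Finsupp.sum, Finsupp.sum, Finset.sum_mul]
      refine (norm_sum_le _ _).trans (Finset.sum_le_sum fun k _ => ?_)
      rw [norm_mul, norm_real, Real.norm_eq_abs, mul_assoc]
      exact mul_le_mul_of_nonneg_left (h2 (t k) x hx) (abs_nonneg _)
    have h6 := h1 x hx
    have h8 := h3 x hx
    calc _ ≤ ‖((fV μ j v.1 x : ℝ) : ℂ) + ((fP μ j v.2.1 x : ℝ) : ℂ) * I‖ +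
          ‖v.2.2.sum fun k a => (a : ℂ) * vC μ j (t k) x‖ := norm_add_le _ _
      _ ≤ (C1 * x ^ (-σ) + C3 * x ^ (-σ)) + (v.2.2.sum fun k a => |a| * C2) * x ^ (-σ) := by linarith
      _ = _ := by ring
  have hadd : ∀ (v w : VT) (x : ℝ), gT μ t j (v + w) x = gT μ t j v x + gT μ t j w x := by
    intro v w x
    unfold gT
    rw [Prod.fst_add, Prod.snd_add, Prod.fst_add, Prod.snd_add, GDT_fV_add, GDT_fP_add, GDT_vs_add]
    push_cast
    ring
  have hsmul : ∀ (c : ℝ) (v : VT) (x : ℝ), gT μ t j (c • v) x = (c : ℂ) * gT μ t j v x := by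
    intro c v x
    unfold gT
    rw [Prod.smul_fst, Prod.smul_snd, Prod.smul_fst, Prod.smul_snd, GDT_fV_smul, GDT_fP_smul, GDT_vs_smul]
    push_cast
    ring
  refine ⟨⟨hder, hdec, hadd, hsmul⟩, ⟨?_, ?_, ?_, ?_⟩, fun v x => GDT_re μ t j v x⟩
  · intro v x hx
    have h1 := (bFD n j μ v.1 hμ).1 x hx
    have h2 : HasDerivAt (fun y => v.2.sum fun k a => a * (vC μ j (t k) y).re)
        (v.2.sum fun k a => a * ((vC μ (j + 1) (t k) x / x).re)) x := by
      unfold Finsupp.sum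
      refine HasDerivAt.fun_sum fun k _ => ?_
      have h3 := ((hVCD n j μ hμ).1 (t k) x hx).2
      have h4 : HasDerivAt (fun y => (vC μ j (t k) y).re) ((vC μ (j + 1) (t k) x / x).re) x :=
        (Complex.reCLM.hasFDerivAt.comp_hasDerivAt x h3)
      exact h4.const_mul _
    have h5 : HasDerivAt (gR μ t j v) (fV μ (j + 1) v.1 x / x +
        v.2.sum fun k a => a * ((vC μ (j + 1) (t k) x / x).re)) x := h1.add h2
    refine h5.congr_deriv ?_
    unfold gR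
    have h6 : (v.2.sum fun k a => a * ((vC μ (j + 1) (t k) x / x).re)) =
        (v.2.sum fun k a => a * (vC μ (j + 1) (t k) x).re) / x := by
      rw [Finsupp.sum, Finsupp.sum, Finset.sum_div]
      refine Finset.sum_congr rfl fun u _ => ?_
      rw [Complex.div_ofReal_re]
      ring
    rw [h6]
    ring
  · intro v σ hσ
    obtain ⟨C, h⟩ := hdec (v.1, 0, v.2) σ hσ
    refine ⟨C, fun x hx => ?_⟩
    rw [GDT_re]
    exact (Complex.abs_re_le_norm _).trans (h x hx)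
  · intro v w x
    rw [GDT_re, GDT_re, GDT_re, ← Complex.add_re, ← hadd]
    congr 2
    simp
  · intro c v x
    rw [GDT_re, GDT_re, ← Complex.re_ofReal_mul, ← hsmul]
    congr 2
    simp

end Pool.Agent.TA
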