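import Pool.Agent.helper38.TA.SpecK

/-!
# Project TA, row GGS
-/

set_option autoImplicit false

open Complex MeasureTheory Set

namespace Pool.Agent.TA

open Pool.Agent.BA (Par GG kl kf vf fV Bw Den PP wt lam gpf rgz)

/-- powers of numbers which are comparable up to a factor 2 -/
theorem GGS_rpow (a b e : ℝ) (ha : 0 < a) (h1 : a ≤ b) (h2 : b ≤ 2 * a) :
    (2 : ℝ) ^ (-|e|) * b ^ e ≤ a ^ e ∧ a ^ e ≤ (2 : ℝ) ^ |e| * b ^ e := by
  have hb : 0 < b := lt_of_lt_of_le ha h1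
  have h2p : (0 : ℝ) < 2 ^ (-|e|) := Real.rpow_pos_of_pos two_pos _
  have h2q : (1 : ℝ) ≤ 2 ^ |e| := Real.one_le_rpow one_le_two (abs_nonneg e)
  have h2r : (2 : ℝ) ^ (-|e|) ≤ 1 := by
    rw [Real.rpow_neg two_pos.le]
    exact inv_le_one_of_one_le₀ h2q
  have hbe : 0 < b ^ e := Real.rpow_pos_of_pos hb _
  have hae : 0 < a ^ e := Real.rpow_pos_of_pos ha _
  rcases le_total 0 e with he | he
  · rw [abs_of_nonneg he] at *
    have h3 : a ^ e ≤ b ^ e := Real.rpow_le_rpow ha.le h1 he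
    have h4 : b ^ e ≤ 2 ^ e * a ^ e := by
      rw [← Real.mul_rpow two_pos.le ha.le]
      exact Real.rpow_le_rpow hb.le h2 he
    refine ⟨?_, ?_⟩
    · rw [Real.rpow_neg two_pos.le, inv_mul_le_iff₀ (Real.rpow_pos_of_pos two_pos _)]
      exact h4
    · nlinarith
  · rw [abs_of_nonpos he] at *
    have h3 : b ^ e ≤ a ^ e := Real.rpow_le_rpow_of_nonpos ha h1 he
    have h4 : a ^ e ≤ 2 ^ (-e) * b ^ e := by
      have h5 : (2 * a) ^ e ≤ b ^ e := Real.rpow_le_rpow_of_nonpos hb h2 he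
      rw [Real.mul_rpow two_pos.le ha.le] at h5
      calc a ^ e = 2 ^ (-e) * (2 ^ e * a ^ e) := by
            rw [← mul_assoc, ← Real.rpow_add two_pos]
            simp
        _ ≤ _ := mul_le_mul_of_nonneg_left h5 (Real.rpow_pos_of_pos two_pos _).le
    refine ⟨?_, h4⟩
    nlinarith

/-- one factor -/
theorem GGS_fac (hSTG : STG_stmt) (μ σ : ℝ) (hμ : 0 ≤ μ) (hσ : 0 < σ) : ∃ C : ℝ, 1 ≤ C ∧ ∀ τ : ℝ,
    C⁻¹ * ((1 + |τ|) ^ ((σ + μ - 1) / 2) * Real.exp (-(Real.pi / 4 * |τ|))) ≤ ‖Gammaℝ ((σ : ℂ) + τ * I + (μ : ℂ))‖ ∧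
    ‖Gammaℝ ((σ : ℂ) + τ * I + (μ : ℂ))‖ ≤ C * ((1 + |τ|) ^ ((σ + μ - 1) / 2) * Real.exp (-(Real.pi / 4 * |τ|))) := by
  obtain ⟨C, hC, h⟩ := hSTG ((σ + μ) / 2) (by linarith)
  set e : ℝ := (σ + μ - 1) / 2 with he
  set P : ℝ := Real.pi ^ (-((σ + μ) / 2)) with hP
  have hP0 : 0 < P := Real.rpow_pos_of_pos Real.pi_pos _
  have h2p : (0 : ℝ) < 2 ^ (-|e|) := Real.rpow_pos_of_pos two_pos _
  have h2q : (1 : ℝ) ≤ 2 ^ |e| := Real.one_le_rpow one_le_two (abs_nonneg e)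
  have hC0 : 0 < C := by linarith
  have hM : (1 : ℝ) ≤ max 1 (max (P * C * 2 ^ |e|) (P⁻¹ * C * 2 ^ |e|)) := le_max_left _ _
  refine ⟨max 1 (max (P * C * 2 ^ |e|) (P⁻¹ * C * 2 ^ |e|)), hM, fun τ => ?_⟩
  set M : ℝ := max 1 (max (P * C * 2 ^ |e|) (P⁻¹ * C * 2 ^ |e|)) with hMd
  have hM1 : P * C * 2 ^ |e| ≤ M := (le_max_left _ _).trans (le_max_right _ _)
  have hM2 : P⁻¹ * C * 2 ^ |e| ≤ M := (le_max_right _ _).trans (le_max_right _ _)
  have hM0 : 0 < M := by linarith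
  have hn : ‖Gammaℝ ((σ : ℂ) + τ * I + (μ : ℂ))‖ = P * ‖Complex.Gamma ((((σ + μ) / 2 : ℝ) : ℂ) + ((τ / 2 : ℝ) : ℂ) * I)‖ := by
    rw [Complex.Gammaℝ_def, norm_mul]
    congr 1
    · rw [Complex.norm_cpow_eq_rpow_re_of_pos Real.pi_pos, hP]
      congr 1
      simp
      ring
    · congr 2
      push_cast
      ring
  have hh := h (τ / 2)
  have he2 : (σ + μ) / 2 - 1 / 2 = e := by rw [he]; ring
  rw [he2] at hh
  have habs : |τ / 2| = |τ| / 2 := by rw [abs_div, abs_two]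
  have hex : Real.exp (-(Real.pi / 2 * |τ / 2|)) = Real.exp (-(Real.pi / 4 * |τ|)) := by
    congr 1
    rw [habs]
    ring
  rw [hex] at hh
  set E : ℝ := Real.exp (-(Real.pi / 4 * |τ|)) with hE
  have hE0 : 0 < E := Real.exp_pos _
  have hab := GGS_rpow (1 + |τ / 2|) (1 + |τ|) e (by positivity) (by rw [habs]; linarith [abs_nonneg τ])
    (by rw [habs]; linarith [abs_nonneg τ])
  set A : ℝ := (1 + |τ / 2|) ^ e with hA
  set B : ℝ := (1 + |τ|) ^ e with hB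
  have hB0 : 0 < B := Real.rpow_pos_of_pos (by positivity) _
  have hA0 : 0 < A := Real.rpow_pos_of_pos (by positivity) _
  rw [hn]
  have hBE : 0 < B * E := by positivity
  constructor
  · rw [inv_mul_le_iff₀ hM0]
    have h3 : B ≤ 2 ^ |e| * A := by
      have h4 := hab.1
      rw [Real.rpow_neg two_pos.le, inv_mul_le_iff₀ (by linarith)] at h4
      exact h4
    have h5 := hh.1
    rw [inv_mul_le_iff₀ hC0] at h5
    set G := ‖Complex.Gamma ((((σ + μ) / 2 : ℝ) : ℂ) + ((τ / 2 : ℝ) : ℂ) * I)‖ with hG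
    have hG0 : 0 ≤ G := norm_nonneg _
    calc B * E ≤ 2 ^ |e| * A * E := mul_le_mul_of_nonneg_right h3 hE0.le
      _ = 2 ^ |e| * (A * E) := by ring
      _ ≤ 2 ^ |e| * (C * G) := mul_le_mul_of_nonneg_left h5 (by linarith)
      _ = (P⁻¹ * C * 2 ^ |e|) * (P * G) := by field_simp
      _ ≤ M * (P * G) := mul_le_mul_of_nonneg_right hM2 (by positivity)
  · calc P * ‖Complex.Gamma ((((σ + μ) / 2 : ℝ) : ℂ) + ((τ / 2 : ℝ) : ℂ) * I)‖ ≤ P * (C * (A * E)) :=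
          mul_le_mul_of_nonneg_left hh.2 hP0.le
      _ ≤ P * (C * ((2 ^ |e| * B) * E)) := by
          have := hab.2
          gcongr
      _ = (P * C * 2 ^ |e|) * (B * E) := by ring
      _ ≤ M * (B * E) := mul_le_mul_of_nonneg_right hM1 hBE.le

theorem GGS (hSTG : STG_stmt) : GGS_stmt := by
  intro n μ σ hμ hσ
  have hf : ∀ j : Fin n, ∃ C : ℝ, 1 ≤ C ∧ ∀ τ : ℝ,
      C⁻¹ * ((1 + |τ|) ^ ((σ + μ j - 1) / 2) * Real.exp (-(Real.pi / 4 * |τ|))) ≤
        ‖Gammaℝ ((σ : ℂ) + τ * I + (μ j : ℂ))‖ ∧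
      ‖Gammaℝ ((σ : ℂ) + τ * I + (μ j : ℂ))‖ ≤
        C * ((1 + |τ|) ^ ((σ + μ j - 1) / 2) * Real.exp (-(Real.pi / 4 * |τ|))) :=
    fun j => GGS_fac hSTG (μ j) σ (hμ.2 j) hσ
  choose C hC1 hC using hf
  refine ⟨∏ j, C j, ?_, fun τ => ?_⟩
  · calc (1 : ℝ) = ∏ _j : Fin n, (1 : ℝ) := by simp
      _ ≤ ∏ j, C j := Finset.prod_le_prod (fun _ _ => zero_le_one) fun j _ => hC1 j
  · have hT : 0 < 1 + |τ| := by positivity
    have hprod : ∏ j, ((1 + |τ|) ^ ((σ + μ j - 1) / 2) * Real.exp (-(Real.pi / 4 * |τ|))) =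
        (1 + |τ|) ^ ((n * (σ - 1) + ∑ j, μ j) / 2) * Real.exp (-(Real.pi / 4 * n * |τ|)) := by
      rw [Finset.prod_mul_distrib, Finset.prod_const, Finset.card_univ, Fintype.card_fin, ← Real.exp_nat_mul]
      congr 1
      · rw [← Real.rpow_sum_of_pos hT]
        congr 1
        rw [← Finset.sum_div]
        congr 1
        rw [show (fun j => σ + μ j - 1) = fun j => (σ - 1) + μ j from funext fun j => by ring,
          Finset.sum_add_distrib, Finset.sum_const, Finset.card_univ, Fintype.card_fin, nsmul_eq_mul]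
      · congr 1
        ring
    unfold GG
    rw [norm_prod, ← hprod]
    constructor
    · rw [← Finset.prod_inv_distrib, ← Finset.prod_mul_distrib]
      refine Finset.prod_le_prod (fun j _ => ?_) fun j _ => (hC j τ).1
      have : 0 < C j := by linarith [hC1 j]
      positivity
    · rw [← Finset.prod_mul_distrib]
      exact Finset.prod_le_prod (fun j _ => norm_nonneg _) fun j _ => (hC j τ).2

end Pool.Agent.TA
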